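import Mathlib
import Pool.Agent.SZT.StmtsC

set_option autoImplicit false

/-!
# Squad SZT, row AVG
-/

namespace Pool.Agent.SZT.H34

open Pool.Agent.SZT

theorem sum_id (n : ℕ) : ∑ j ∈ Finset.range n, (j : ℝ) = n * (n - 1) / 2 := by
  induction n with
  | zero => simp
  | succ n ih =>
    rw [Finset.sum_range_succ, ih]
    push_cast
    ring

theorem sum_sq (n : ℕ) : ∑ j ∈ Finset.range n, (j : ℝ) ^ 2 = (n - 1) * n * (2 * n - 1) / 6 := by
  induction n with
  | zero => simp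
  | succ n ih =>
    rw [Finset.sum_range_succ, ih]
    push_cast
    ring

theorem sum_frac {q : ℕ} (hq : 0 < q) :
    ∑ j ∈ Finset.range q, ((j : ℝ) / q) * (1 - (j : ℝ) / q) ≤ q / 6 := by
  have hq' : (0 : ℝ) < q := by exact_mod_cast hq
  have h : ∑ j ∈ Finset.range q, ((j : ℝ) / q) * (1 - (j : ℝ) / q) =
      (∑ j ∈ Finset.range q, (j : ℝ)) / q - (∑ j ∈ Finset.range q, (j : ℝ) ^ 2) / q ^ 2 := by
    rw [Finset.sum_div, Finset.sum_div, ← Finset.sum_sub_distrib]
    refine Finset.sum_congr rfl fun j _ => ?_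
    field_simp
  rw [h, sum_id, sum_sq]
  have h2 : (q : ℝ) * (q - 1) / 2 / q - (q - 1) * q * (2 * q - 1) / 6 / q ^ 2 =
      q / 6 - 1 / (6 * q) := by
    field_simp
    ring
  rw [h2]
  have : 0 < 1 / (6 * (q : ℝ)) := by positivity
  linarith

theorem sum_periodic (F : ℕ → ℝ) (q g : ℕ) (h : ∀ k, F (q + k) = F k) :
    ∑ k ∈ Finset.range (q * g), F k = g * ∑ k ∈ Finset.range q, F k := by
  have h2 : ∀ j k, F (q * j + k) = F k := by
    intro j
    induction j with
    | zero => intro k; simp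
    | succ j ih =>
      intro k
      rw [Nat.mul_succ, Nat.add_assoc, ih, h]
  induction g with
  | zero => simp
  | succ g ih =>
    rw [Nat.mul_succ, Finset.sum_range_add, ih, Finset.sum_congr rfl fun k _ => h2 g k]
    push_cast
    ring

theorem avg : AvgStatement := by
  intro N t hN ⟨m, hm⟩
  have hgpos : 0 < Int.gcd m (N : ℤ) :=
    Int.gcd_pos_of_ne_zero_right _ (by exact_mod_cast hN.ne')
  obtain ⟨m', n', hc, h1, h2⟩ := Int.exists_gcd_one hgpos
  obtain ⟨g, hg⟩ : ∃ g, g = Int.gcd m (N : ℤ) := ⟨_, rfl⟩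
  rw [← hg] at h1 h2 hgpos
  have hn' : 0 < n' := by
    have h3 : 0 < n' * (g : ℤ) := by
      rw [← h2]
      exact_mod_cast hN
    exact pos_of_mul_pos_left h3 (by positivity)
  obtain ⟨q, rfl⟩ : ∃ q : ℕ, n' = q := ⟨n'.toNat, (Int.toNat_of_nonneg hn'.le).symm⟩
  have hq : 0 < q := by exact_mod_cast hn'
  have hN' : N = q * g := by exact_mod_cast h2
  have hqr : (q : ℝ) ≠ 0 := by exact_mod_cast hq.ne'
  have hgr : (g : ℝ) ≠ 0 := by exact_mod_cast hgpos.ne'
  have hqt : (q : ℝ) * t = m' := by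
    have h3 : (N : ℝ) * t = (m' * g : ℤ) := by rw [hm, h1]
    rw [hN'] at h3
    push_cast at h3
    have h4 : (g : ℝ) * (q * t) = g * m' := by linarith
    exact mul_left_cancel₀ hgr h4
  have hper : ∀ k : ℕ, Int.fract (((q + k : ℕ) : ℝ) * t) * (1 - Int.fract (((q + k : ℕ) : ℝ) * t)) =
      Int.fract ((k : ℝ) * t) * (1 - Int.fract ((k : ℝ) * t)) := by
    intro k
    have h3 : ((q + k : ℕ) : ℝ) * t = k * t + m' := by
      push_cast
      rw [← hqt]
      ring
    rw [h3, Int.fract_add_intCast]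
  have hsum := sum_periodic (fun k => Int.fract ((k : ℝ) * t) * (1 - Int.fract ((k : ℝ) * t))) q g
    hper
  rw [hN', hsum]
  have hfr : ∀ k : ℕ, Int.fract ((k : ℝ) * t) = (((k * m') % q : ℤ) : ℝ) / q := by
    intro k
    have h3 : (k : ℝ) * t = ((k * m' : ℤ) : ℝ) / (q : ℕ) := by
      push_cast
      rw [eq_div_iff hqr, ← hqt]
      ring
    rw [h3]
    exact Int.fract_div_intCast_eq_div_intCast_mod
  have hinj : Set.InjOn (fun k : ℕ => ((k * m') % q : ℤ).toNat) (Finset.range q : Set ℕ) := by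
    intro x hx y hy hxy
    rw [Finset.mem_coe, Finset.mem_range] at hx hy
    have hqz : (q : ℤ) ≠ 0 := by exact_mod_cast hq.ne'
    have h3 : ((x * m') % q : ℤ) = ((y * m') % q : ℤ) := by
      have h4 : (((x * m') % q : ℤ).toNat : ℤ) = (((y * m') % q : ℤ).toNat : ℤ) :=
        congrArg _ hxy
      rwa [Int.toNat_of_nonneg (Int.emod_nonneg _ hqz),
        Int.toNat_of_nonneg (Int.emod_nonneg _ hqz)] at h4
    have h5 : (q : ℤ) ∣ (x : ℤ) * m' - y * m' := Int.ModEq.dvd (Int.ModEq.symm h3)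
    rw [← sub_mul] at h5
    have h6 : IsCoprime (q : ℤ) m' := (Int.isCoprime_iff_gcd_eq_one.2 hc).symm
    have h7 : (q : ℤ) ∣ (x : ℤ) - y := h6.dvd_of_dvd_mul_right h5
    have h8 : (x : ℤ) - y = 0 := by
      refine Int.eq_zero_of_abs_lt_dvd h7 ?_
      rw [abs_lt]
      constructor <;> omega
    omega
  have himg : (Finset.range q).image (fun k : ℕ => ((k * m') % q : ℤ).toNat) = Finset.range q := by
    refine Finset.eq_of_subset_of_card_le ?_ ?_
    · intro y hy
      obtain ⟨x, _, rfl⟩ := Finset.mem_image.1 hy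
      have hqz : (q : ℤ) ≠ 0 := by exact_mod_cast hq.ne'
      have h3 := Int.emod_nonneg ((x : ℤ) * m') hqz
      have h4 := Int.emod_lt_of_pos ((x : ℤ) * m') hn'
      rw [Finset.mem_range]
      omega
    · rw [Finset.card_image_of_injOn hinj]
  have hs : ∑ k ∈ Finset.range q, Int.fract ((k : ℝ) * t) * (1 - Int.fract ((k : ℝ) * t)) =
      ∑ j ∈ Finset.range q, ((j : ℝ) / q) * (1 - (j : ℝ) / q) := by
    conv_rhs => rw [← himg]
    rw [Finset.sum_image hinj]
    refine Finset.sum_congr rfl fun k _ => ?_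
    have hqz : (q : ℤ) ≠ 0 := by exact_mod_cast hq.ne'
    have h3 : ((((k * m') % q : ℤ).toNat : ℕ) : ℝ) = (((k * m') % q : ℤ) : ℝ) := by
      have h4 := Int.toNat_of_nonneg (Int.emod_nonneg ((k : ℤ) * m') hqz)
      exact_mod_cast congrArg (fun z : ℤ => (z : ℝ)) h4
    rw [hfr, h3]
  rw [hs]
  have h9 := mul_le_mul_of_nonneg_left (sum_frac hq) (Nat.cast_nonneg (α := ℝ) g)
  refine h9.trans (le_of_eq ?_)
  push_cast
  ring

end Pool.Agent.SZT.H34
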