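import Mathlib
import Pool.Agent.SZT.StmtsB

set_option autoImplicit false

/-!
# Squad SZT, row SUM
-/

noncomputable section

namespace Pool.Agent.SZT.H34

open Filter Topology Pool.Agent.SZT

/-- the weighted geometric mean -/
theorem term_le {r μ A x t : ℝ} {k : ℤ} (hr : 0 < r) (hμ : 0 < μ) (hA : 0 ≤ A) (ht0 : 0 ≤ t)
    (ht1 : t ≤ 1) (hx : r ^ t = x) (h1 : A ≤ x ^ k) (h2 : A ≤ μ * r ^ (-k) * x ^ k) :
    A ≤ μ ^ t := by
  have hx0 : 0 < x := by
    rw [← hx]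
    exact Real.rpow_pos_of_pos hr t
  rcases hA.eq_or_lt with h | h
  · rw [← h]
    exact (Real.rpow_pos_of_pos hμ t).le
  · have e1 : A = A ^ (1 - t) * A ^ t := by
      rw [← Real.rpow_add h]
      simp
    have hxk : 0 < x ^ k := zpow_pos hx0 k
    have hrk : 0 < r ^ (-k) := zpow_pos hr _
    have e2 : (r ^ (-k)) ^ t = (x ^ k)⁻¹ := by
      rw [← Real.rpow_intCast r (-k), ← Real.rpow_mul hr.le, mul_comm, Real.rpow_mul hr.le, hx,
        Real.rpow_intCast, zpow_neg]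
    calc A = A ^ (1 - t) * A ^ t := e1
      _ ≤ (x ^ k) ^ (1 - t) * (μ * r ^ (-k) * x ^ k) ^ t :=
          mul_le_mul (Real.rpow_le_rpow hA h1 (by linarith)) (Real.rpow_le_rpow hA h2 ht0)
            (Real.rpow_nonneg hA t) (Real.rpow_nonneg hxk.le _)
      _ = (x ^ k) ^ (1 - t) * (μ ^ t * (x ^ k)⁻¹ * (x ^ k) ^ t) := by
          rw [Real.mul_rpow (mul_pos hμ hrk).le hxk.le, Real.mul_rpow hμ.le hrk.le, e2]
      _ = μ ^ t * (x ^ k)⁻¹ * ((x ^ k) ^ (1 - t) * (x ^ k) ^ t) := by ring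
      _ = μ ^ t := by
          rw [← Real.rpow_add hxk, sub_add_cancel, Real.rpow_one]
          field_simp

theorem sum : B.SumStmt := by
  intro L _ _ _ r μ c X hr hr1 hμ hb hX
  obtain ⟨hX1, hX2⟩ := hX
  obtain ⟨hb1, hb2⟩ := hb
  have hX0 : 0 < ‖X‖ := hr.trans hX1
  have hlr : Real.log r < 0 := Real.log_neg hr hr1
  have hlX : Real.log ‖X‖ < 0 := Real.log_neg hX0 hX2
  have hlrX : Real.log r < Real.log ‖X‖ := Real.log_lt_log hr hX1
  have ht0 : 0 < B.pos r X := by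
    unfold B.pos
    exact div_pos_of_neg_of_neg hlX hlr
  have ht1 : B.pos r X < 1 := by
    unfold B.pos
    rw [div_lt_one_of_neg hlr]
    exact hlrX
  have hrt : r ^ B.pos r X = ‖X‖ := by
    rw [Real.rpow_def_of_pos hr]
    unfold B.pos
    rw [mul_div_cancel₀ _ hlr.ne, Real.exp_log hX0]
  have hn : ∀ k : ℤ, ‖c k * X ^ k‖ = ‖c k‖ * ‖X‖ ^ k := fun k => by rw [norm_mul, norm_zpow]
  have h1 : ∀ k : ℤ, ‖c k * X ^ k‖ ≤ ‖X‖ ^ k := by
    intro k
    rw [hn]
    exact mul_le_of_le_one_left (zpow_pos hX0 k).le (hb1 k)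
  have h2 : ∀ k : ℤ, ‖c k * X ^ k‖ ≤ μ * r ^ (-k) * ‖X‖ ^ k := by
    intro k
    rw [hn]
    exact mul_le_mul_of_nonneg_right (hb2 k) (zpow_pos hX0 k).le
  have h3 : ∀ k : ℤ, ‖c k * X ^ k‖ ≤ μ ^ B.pos r X := fun k =>
    term_le hr hμ (norm_nonneg _) ht0.le ht1.le hrt (h1 k) (h2 k)
  refine ⟨ht0, ht1, hrt, h3, ?_, ?_⟩
  · refine NonarchimedeanAddGroup.summable_of_tendsto_cofinite_zero ?_
    rw [tendsto_zero_iff_norm_tendsto_zero, Int.cofinite_eq, tendsto_sup]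
    constructor
    · -- `k → -∞`
      have h4 : Tendsto (fun n : ℕ => μ * (r / ‖X‖) ^ n) atTop (𝓝 0) := by
        have := (tendsto_pow_atTop_nhds_zero_of_lt_one (by positivity : 0 ≤ r / ‖X‖)
          ((div_lt_one hX0).2 hX1)).const_mul μ
        rwa [mul_zero] at this
      have h5 : Tendsto (fun k : ℤ => μ * (r / ‖X‖) ^ ((-k).toNat)) atBot (𝓝 0) :=
        h4.comp (tendsto_atTop.2 fun b => by
          filter_upwards [eventually_le_atBot (-(b : ℤ))] with k hk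
          omega)
      refine squeeze_zero' (Eventually.of_forall fun k => norm_nonneg _) ?_ h5
      filter_upwards [eventually_le_atBot (0 : ℤ)] with k hk
      refine (h2 k).trans (le_of_eq ?_)
      obtain ⟨n, hn'⟩ : ∃ n : ℕ, k = -(n : ℤ) := ⟨(-k).toNat, by omega⟩
      subst hn'
      rw [neg_neg, Int.toNat_natCast, zpow_natCast, zpow_neg, zpow_natCast, div_pow]
      field_simp
    · have h4 : Tendsto (fun n : ℕ => ‖X‖ ^ n) atTop (𝓝 0) :=
        tendsto_pow_atTop_nhds_zero_of_lt_one hX0.le hX2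
      have h5 : Tendsto (fun k : ℤ => ‖X‖ ^ (k.toNat)) atTop (𝓝 0) :=
        h4.comp (tendsto_atTop.2 fun b => by
          filter_upwards [eventually_ge_atTop (b : ℤ)] with k hk
          omega)
      refine squeeze_zero' (Eventually.of_forall fun k => norm_nonneg _) ?_ h5
      filter_upwards [eventually_ge_atTop (0 : ℤ)] with k hk
      refine (h1 k).trans (le_of_eq ?_)
      obtain ⟨n, rfl⟩ : ∃ n : ℕ, k = (n : ℤ) := ⟨k.toNat, by omega⟩
      rw [Int.toNat_natCast, zpow_natCast]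
  · unfold B.val
    exact IsUltrametricDist.norm_tsum_le_of_forall_le h3

end Pool.Agent.SZT.H34
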